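import Mathlib
import Pool.Agent.Y584.Order

set_option autoImplicit false

universe u

namespace Pool.Agent.Results.MP_e7ecb4_lc.RegularFails

/-- `P ∈ 𝒟(μ)`: the partially ordered set `P` contains no antichain (set of pairwise incomparable
elements) of cardinality `μ`. -/
def NoAntichain (μ : Cardinal.{u}) (P : Type u) [PartialOrder P] : Prop :=
  ¬ ∃ A : Set P, IsAntichain (· ≤ ·) A ∧ Cardinal.mk A = μ

/-- `P` is a union of fewer than `lam` ideals (`Order.Ideal`: nonempty up-directed initial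
segments). -/
def UnionOfFewer (lam : Cardinal.{u}) (P : Type u) [PartialOrder P] : Prop :=
  ∃ S : Set (Order.Ideal P), Cardinal.mk S < lam ∧ ∀ x : P, ∃ I ∈ S, x ∈ I

/-- `F μ` is the least cardinal `lam` such that every `P ∈ 𝒟(μ)` is a union of fewer than `lam`
ideals. -/
noncomputable def F (μ : Cardinal.{u}) : Cardinal.{u} :=
  sInf {lam | ∀ (P : Type u) [PartialOrder P], NoAntichain μ P → UnionOfFewer lam P}

/-- ZFC refutes `F(μ) = μ` for all infinite cardinals: above every cardinal `ν` there is a regular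
cardinal `μ` with `F(μ) > μ`. (Here the set whose infimum is `F μ` is nonempty, since `F μ > 0`, so
`F μ` is the least element of it.) -/
theorem result : ∀ ν : Cardinal.{u}, ∃ μ : Cardinal.{u}, ν < μ ∧ μ.IsRegular ∧ μ < F μ := by
  intro ν
  obtain ⟨κ, hνκ, hκ, P, instP, hPκ, hanti, hdir⟩ := Pool.Agent.Y584.Sc.core ν
  refine ⟨κ, hνκ, hκ, ?_⟩
  have hne : {lam : Cardinal.{u} | ∀ (P : Type u) [PartialOrder P],
      NoAntichain κ P → UnionOfFewer lam P}.Nonempty := by
    refine ⟨Order.succ (2 ^ κ), ?_⟩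
    intro Q _ hQ
    obtain ⟨S, hS, hS2⟩ := Pool.Agent.Y584.Sc.exists_bound hκ.aleph0_le Q
      (Pool.Agent.Helper113.F.lt_of_noAntichain hQ)
    exact ⟨S, Order.lt_succ_iff.2 hS, hS2⟩
  have hmem : F κ ∈ {lam : Cardinal.{u} | ∀ (P : Type u) [PartialOrder P],
      NoAntichain κ P → UnionOfFewer lam P} := csInf_mem hne
  have hP : NoAntichain κ P := by
    rintro ⟨A, hA, hA2⟩
    exact absurd hA2 (hanti A hA).ne
  obtain ⟨S, hS, hS2⟩ := hmem P hP
  by_contra hcon
  rw [not_lt] at hcon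
  have hSκ : Cardinal.mk S < κ := hS.trans_le hcon
  have h1 : (Set.univ : Set P) ⊆ ⋃ I : S, (I.1 : Set P) := by
    intro x _
    obtain ⟨I, hI, hx⟩ := hS2 x
    exact Set.mem_iUnion.2 ⟨⟨I, hI⟩, hx⟩
  have h2 := (Cardinal.card_iUnion_lt_iff_forall_of_isRegular hκ hSκ
    (t := fun I : S => (I.1 : Set P))).2 (fun I => hdir _ I.1.nonempty I.1.directed)
  have h3 := (Cardinal.mk_le_mk_of_subset h1).trans_lt h2
  rw [Cardinal.mk_univ, hPκ] at h3
  exact lt_irrefl _ h3

end Pool.Agent.Results.MP_e7ecb4_lc.RegularFails
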